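import Mathlib

/-!
# MP_eda2d2_co, Q1 disproved

For `p = 2`, `q = 3`, `r = 7` and `t = (2,2,1,1) ∈ S` both members `A_t`, `B_{t̄}` of the pair
attached to `t` have only nonnegative coefficients.
-/

namespace Pool.Agent.Results.MP_eda2d2_co.DicePairCounterexample

open Polynomial

/-- `M_t = φ_{pqr}^d φ_{pq}^a φ_{pr}^b φ_{qr}^c` for `t = (a,b,c,d)`. -/
noncomputable def M (p q r a b c d : ℕ) : ℤ[X] :=
  cyclotomic (p * q * r) ℤ ^ d * cyclotomic (p * q) ℤ ^ a * cyclotomic (p * r) ℤ ^ b *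
    cyclotomic (q * r) ℤ ^ c

/-- `A_t = x (φ_p φ_q)^2 M_t`. -/
noncomputable def A (p q r a b c d : ℕ) : ℤ[X] :=
  X * (cyclotomic p ℤ * cyclotomic q ℤ) ^ 2 * M p q r a b c d

/-- `B_t = x φ_r^2 M_t`. -/
noncomputable def B (p q r a b c d : ℕ) : ℤ[X] :=
  X * cyclotomic r ℤ ^ 2 * M p q r a b c d

/-- The set `T` of the ten tuples. -/
def InT (a b c d : ℕ) : Prop :=
  (a = 2 ∧ b = 0 ∧ c = 0 ∧ d = 0) ∨ (a = 2 ∧ b = 1 ∧ c = 0 ∧ d = 1) ∨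
  (a = 2 ∧ b = 0 ∧ c = 1 ∧ d = 1) ∨ (a = 2 ∧ b = 1 ∧ c = 1 ∧ d = 1) ∨
  (a = 2 ∧ b ≤ 2 ∧ c ≤ 2 ∧ 2 ≤ b + c ∧ d = 2)

/-- The set `S`. -/
def InS (a b c d : ℕ) : Prop :=
  a ≤ 2 ∧ b ≤ 2 ∧ c ≤ 2 ∧ d ≤ 2 ∧ 2 + d ≤ a + b + c ∧ a + b + c ≤ 4 + d ∧
    ¬ InT a b c d ∧ ¬ (a = 1 ∧ b = 1 ∧ c = 1 ∧ d = 1)

/-- All coefficients are nonnegative. -/
def NonnegCoeffs (f : ℤ[X]) : Prop := ∀ n : ℕ, 0 ≤ f.coeff n

lemma nonneg_add {f g : ℤ[X]} (hf : NonnegCoeffs f) (hg : NonnegCoeffs g) :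
    NonnegCoeffs (f + g) := fun n => by
  rw [coeff_add]; exact add_nonneg (hf n) (hg n)

lemma nonneg_mul {f g : ℤ[X]} (hf : NonnegCoeffs f) (hg : NonnegCoeffs g) :
    NonnegCoeffs (f * g) := fun n => by
  rw [coeff_mul]; exact Finset.sum_nonneg fun x _ => mul_nonneg (hf _) (hg _)

lemma nonneg_X_pow (k : ℕ) : NonnegCoeffs ((X : ℤ[X]) ^ k) := fun n => by
  rw [coeff_X_pow]; split_ifs <;> norm_num

lemma nonneg_X : NonnegCoeffs (X : ℤ[X]) := by simpa using nonneg_X_pow 1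

lemma nonneg_one : NonnegCoeffs (1 : ℤ[X]) := by simpa using nonneg_X_pow 0

lemma nonneg_two : NonnegCoeffs (2 : ℤ[X]) := by
  rw [← one_add_one_eq_two]; exact nonneg_add nonneg_one nonneg_one

lemma nonneg_three : NonnegCoeffs (3 : ℤ[X]) := by
  rw [← two_add_one_eq_three]; exact nonneg_add nonneg_two nonneg_one

lemma cyc2 : cyclotomic 2 ℤ = X + 1 := cyclotomic_two ℤ
lemma cyc3 : cyclotomic 3 ℤ = X ^ 2 + X + 1 := cyclotomic_three ℤ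
lemma cyc6 : cyclotomic 6 ℤ = X ^ 2 - X + 1 := cyclotomic_six ℤ

lemma cyc7 : cyclotomic 7 ℤ = X ^ 6 + X ^ 5 + X ^ 4 + X ^ 3 + X ^ 2 + X + 1 := by
  have : Fact (Nat.Prime 7) := ⟨by norm_num⟩
  rw [cyclotomic_prime]
  simp only [Finset.sum_range_succ, Finset.sum_range_zero, pow_zero, pow_one]
  ring

lemma cyc14 : cyclotomic 14 ℤ = X ^ 6 - X ^ 5 + X ^ 4 - X ^ 3 + X ^ 2 - X + 1 := by
  have h := cyclotomic_expand_eq_cyclotomic_mul (p := 7) (n := 2) (by norm_num) (by norm_num) ℤ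
  rw [cyc2, show 2 * 7 = 14 from rfl] at h
  have h0 : (X + 1 : ℤ[X]) ≠ 0 := by rw [← cyc2]; exact cyclotomic_ne_zero 2 ℤ
  apply mul_right_cancel₀ h0
  rw [← h]
  simp only [map_add, expand_X, map_one]
  ring

lemma cyc21 : cyclotomic 21 ℤ =
    X ^ 12 - X ^ 11 + X ^ 9 - X ^ 8 + X ^ 6 - X ^ 4 + X ^ 3 - X + 1 := by
  have h := cyclotomic_expand_eq_cyclotomic_mul (p := 7) (n := 3) (by norm_num) (by norm_num) ℤ
  rw [cyc3, show 3 * 7 = 21 from rfl] at h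
  have h0 : (X ^ 2 + X + 1 : ℤ[X]) ≠ 0 := by rw [← cyc3]; exact cyclotomic_ne_zero 3 ℤ
  apply mul_right_cancel₀ h0
  rw [← h]
  simp only [map_add, map_pow, expand_X, map_one]
  ring

lemma cyc42 : cyclotomic 42 ℤ =
    X ^ 12 + X ^ 11 - X ^ 9 - X ^ 8 + X ^ 6 - X ^ 4 - X ^ 3 + X + 1 := by
  have h := cyclotomic_expand_eq_cyclotomic_mul (p := 7) (n := 6) (by norm_num) (by norm_num) ℤ
  rw [cyc6, show 6 * 7 = 42 from rfl] at h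
  have h0 : (X ^ 2 - X + 1 : ℤ[X]) ≠ 0 := by rw [← cyc6]; exact cyclotomic_ne_zero 6 ℤ
  apply mul_right_cancel₀ h0
  rw [← h]
  simp only [map_add, map_sub, map_pow, expand_X, map_one]
  ring

lemma A_eq : A 2 3 7 2 2 1 1 =
    X + X ^ 3 + X ^ 5 + 2 * X ^ 8 + 2 * X ^ 10 + 2 * X ^ 12 + 2 * X ^ 15 + 2 * X ^ 17 +
    2 * X ^ 19 + 2 * X ^ 22 + 2 * X ^ 24 + 2 * X ^ 26 + 2 * X ^ 29 + 2 * X ^ 31 + 2 * X ^ 33 +
    2 * X ^ 36 + 2 * X ^ 38 + 2 * X ^ 40 + X ^ 43 + X ^ 45 + X ^ 47 := by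
  unfold A M
  norm_num only
  rw [cyc2, cyc3, cyc6, cyc14, cyc21, cyc42]
  ring

lemma B_eq : B 2 3 7 (2 - 2) (2 - 2) (2 - 1) (2 - 1) =
    X + 2 * X ^ 2 + 2 * X ^ 3 + 2 * X ^ 4 + 2 * X ^ 5 + 2 * X ^ 6 + 3 * X ^ 7 + 2 * X ^ 8 +
    X ^ 13 + 2 * X ^ 16 + 2 * X ^ 17 + 2 * X ^ 18 + 3 * X ^ 19 + 2 * X ^ 20 + 2 * X ^ 21 +
    2 * X ^ 22 + X ^ 25 + 2 * X ^ 30 + 3 * X ^ 31 + 2 * X ^ 32 + 2 * X ^ 33 + 2 * X ^ 34 +
    2 * X ^ 35 + 2 * X ^ 36 + X ^ 37 := by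
  unfold B M
  norm_num only
  rw [cyc7, cyc21, cyc42]
  ring

/-- Q1 is false: there are distinct primes `p,q,r` and a tuple `(a,b,c,d) ∈ S` for which `A_t` and
`B_{t̄}` both have all coefficients nonnegative. -/
theorem result : ∃ p q r a b c d : ℕ, p.Prime ∧ q.Prime ∧ r.Prime ∧ p ≠ q ∧ p ≠ r ∧ q ≠ r ∧
    InS a b c d ∧ NonnegCoeffs (A p q r a b c d) ∧
    NonnegCoeffs (B p q r (2 - a) (2 - b) (2 - c) (2 - d)) := by
  refine ⟨2, 3, 7, 2, 2, 1, 1, by norm_num, by norm_num, by norm_num, by norm_num, by norm_num,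
    by norm_num, ?_, ?_, ?_⟩
  · unfold InS InT; decide
  · rw [A_eq]
    repeat' with_reducible first
      | exact nonneg_X_pow _
      | exact nonneg_X
      | exact nonneg_two
      | exact nonneg_three
      | apply nonneg_add
      | apply nonneg_mul
  · rw [B_eq]
    repeat' with_reducible first
      | exact nonneg_X_pow _
      | exact nonneg_X
      | exact nonneg_two
      | exact nonneg_three
      | apply nonneg_add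
      | apply nonneg_mul

end Pool.Agent.Results.MP_eda2d2_co.DicePairCounterexample
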